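import Mathlib

/-!
Sign part for the quartic sum `S_n = ∑_{k<n} (20k+3) (4k)!/k!^4 (-1024)^(n-1-k)`.
-/

namespace SQS

/-- `(4k)!/k!^4`. -/
def M (k : ℕ) : ℕ := (4 * k).factorial / k.factorial ^ 4

theorem M_mul (k : ℕ) : M k * k.factorial ^ 4 = (4 * k).factorial := by
  unfold M
  apply Nat.div_mul_cancel
  have h1 : k.factorial * (k.factorial) ∣ (k + k).factorial := Nat.factorial_mul_factorial_dvd_factorial_add k k
  have h2 : (k + k).factorial * (k + k).factorial ∣ (k + k + (k + k)).factorial :=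
    Nat.factorial_mul_factorial_dvd_factorial_add _ _
  have h3 : k.factorial ^ 4 = (k.factorial * k.factorial) * (k.factorial * k.factorial) := by ring
  rw [h3, show 4 * k = k + k + (k + k) by ring]
  exact (Nat.mul_dvd_mul h1 h1).trans h2

theorem M_pos (k : ℕ) : 0 < M k := by
  have h := M_mul k
  rcases Nat.eq_zero_or_pos (M k) with h0 | h0
  · rw [h0, zero_mul] at h
    exact absurd h.symm (Nat.factorial_ne_zero _)
  · exact h0

theorem M_succ (k : ℕ) : M (k + 1) * (k + 1) ^ 3 = 4 * (4 * k + 3) * (4 * k + 2) * (4 * k + 1) * M k := by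
  have h1 := M_mul (k + 1)
  have h2 := M_mul k
  have e1 : (4 * (k + 1)).factorial
      = (4 * k + 4) * (4 * k + 3) * (4 * k + 2) * (4 * k + 1) * (4 * k).factorial := by
    rw [show 4 * (k + 1) = 4 * k + 3 + 1 by ring, Nat.factorial_succ,
      show 4 * k + 3 = 4 * k + 2 + 1 by ring, Nat.factorial_succ,
      show 4 * k + 2 = 4 * k + 1 + 1 by ring, Nat.factorial_succ, Nat.factorial_succ]
    ring
  rw [e1, ← h2, Nat.factorial_succ] at h1
  have hp : 0 < (k + 1) * k.factorial ^ 4 := by positivity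
  apply Nat.eq_of_mul_eq_mul_right hp
  calc M (k + 1) * (k + 1) ^ 3 * ((k + 1) * k.factorial ^ 4)
      = M (k + 1) * ((k + 1) * k.factorial) ^ 4 := by ring
    _ = _ := h1
    _ = _ := by ring

/-- `(20k+3) (4k)!/k!^4`. -/
def u (k : ℕ) : ℕ := (20 * k + 3) * M k

theorem u_pos (k : ℕ) : 0 < u k := by
  unfold u
  exact Nat.mul_pos (by omega) (M_pos k)

theorem u_succ_lt (k : ℕ) : u (k + 1) < 1024 * u k := by
  unfold u
  have h := M_succ k
  have hM := M_pos k
  have hp : 0 < (k + 1) ^ 3 := by positivity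
  apply Nat.lt_of_mul_lt_mul_right (a := (k + 1) ^ 3)
  calc (20 * (k + 1) + 3) * M (k + 1) * (k + 1) ^ 3
      = (20 * (k + 1) + 3) * (M (k + 1) * (k + 1) ^ 3) := by ring
    _ = ((20 * (k + 1) + 3) * (4 * (4 * k + 3) * (4 * k + 2) * (4 * k + 1))) * M k := by rw [h]; ring
    _ < (1024 * (20 * k + 3) * (k + 1) ^ 3) * M k := by
        apply Nat.mul_lt_mul_of_pos_right _ hM
        nlinarith [sq_nonneg k]
    _ = 1024 * ((20 * k + 3) * M k) * (k + 1) ^ 3 := by ring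

/-- The alternating sums. -/
def B : ℕ → ℤ
  | 0 => 0
  | n + 1 => 1024 * B n + (-1) ^ n * (u n : ℤ)

theorem B_two (m : ℕ) : 0 ≤ B (2 * m) := by
  induction m with
  | zero => simp [B]
  | succ m ih =>
    rw [show 2 * (m + 1) = 2 * m + 1 + 1 by ring, B, B]
    have h := u_succ_lt (2 * m)
    have h' : (u (2 * m + 1) : ℤ) < 1024 * (u (2 * m) : ℤ) := by exact_mod_cast h
    have e1 : ((-1 : ℤ)) ^ (2 * m) = 1 := by rw [pow_mul]; simp
    have e2 : ((-1 : ℤ)) ^ (2 * m + 1) = -1 := by rw [pow_succ, e1]; simp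
    rw [e1, e2]
    nlinarith

theorem B_two_pos (m : ℕ) : 0 < B (2 * (m + 1)) := by
  rw [show 2 * (m + 1) = 2 * m + 1 + 1 by ring, B, B]
  have h := u_succ_lt (2 * m)
  have h' : (u (2 * m + 1) : ℤ) < 1024 * (u (2 * m) : ℤ) := by exact_mod_cast h
  have h0 := B_two m
  have e1 : ((-1 : ℤ)) ^ (2 * m) = 1 := by rw [pow_mul]; simp
  have e2 : ((-1 : ℤ)) ^ (2 * m + 1) = -1 := by rw [pow_succ, e1]; simp
  rw [e1, e2]
  nlinarith

theorem B_pos (n : ℕ) (hn : 1 ≤ n) : 0 < B n := by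
  rcases Nat.even_or_odd' n with ⟨m, rfl | rfl⟩
  · obtain ⟨m', rfl⟩ : ∃ m', m = m' + 1 := ⟨m - 1, by omega⟩
    exact B_two_pos m'
  · rw [B]
    have h0 := B_two m
    have e1 : ((-1 : ℤ)) ^ (2 * m) = 1 := by rw [pow_mul]; simp
    rw [e1]
    have h1 : (0 : ℤ) < u (2 * m) := by exact_mod_cast u_pos _
    nlinarith

theorem B_eq (n : ℕ) : (-1 : ℤ) ^ n * B (n + 1)
    = ∑ k ∈ Finset.range (n + 1), (20 * (k : ℤ) + 3) * (((4 * k).factorial / k.factorial ^ 4 : ℕ) : ℤ)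
      * (-1024) ^ (n - k) := by
  induction n with
  | zero =>
    simp [B, u, M]
  | succ n ih =>
    rw [Finset.sum_range_succ, B, Nat.sub_self, pow_zero, mul_one]
    have e : ∑ k ∈ Finset.range (n + 1), (20 * (k : ℤ) + 3)
        * (((4 * k).factorial / k.factorial ^ 4 : ℕ) : ℤ) * (-1024) ^ (n + 1 - k)
        = (-1024) * ∑ k ∈ Finset.range (n + 1), (20 * (k : ℤ) + 3)
        * (((4 * k).factorial / k.factorial ^ 4 : ℕ) : ℤ) * (-1024) ^ (n - k) := by
      rw [Finset.mul_sum]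
      apply Finset.sum_congr rfl
      intro k hk
      have hk' : k ≤ n := by
        have := Finset.mem_range.mp hk
        omega
      rw [show n + 1 - k = (n - k) + 1 by omega, pow_succ]
      ring
    rw [e, ← ih]
    have e2 : ((-1 : ℤ)) ^ (n + 1) * ((-1) ^ (n + 1)) = 1 := by
      rw [← mul_pow]; simp
    have e3 : ((u (n + 1) : ℕ) : ℤ) = (20 * ((n + 1 : ℕ) : ℤ) + 3)
        * (((4 * (n + 1)).factorial / (n + 1).factorial ^ 4 : ℕ) : ℤ) := by
      unfold u M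
      push_cast
      ring
    rw [mul_add, ← mul_assoc ((-1 : ℤ) ^ (n + 1)) ((-1) ^ (n + 1)), e2, one_mul, e3, pow_succ]
    ring

/-- Sign of `S_n`. -/
theorem sign_pos (n : ℕ) (hn : 1 ≤ n) : 0 < (-1 : ℤ) ^ (n - 1)
    * ∑ k ∈ Finset.range n, (20 * (k : ℤ) + 3) * (((4 * k).factorial / k.factorial ^ 4 : ℕ) : ℤ)
      * (-1024) ^ (n - 1 - k) := by
  obtain ⟨m, rfl⟩ : ∃ m, n = m + 1 := ⟨n - 1, by omega⟩
  have h := B_eq m
  simp only [Nat.add_sub_cancel]
  rw [← h, ← mul_assoc, ← mul_pow]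
  simp only [neg_mul_neg, one_mul, one_pow]
  exact B_pos _ hn

end SQS
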